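import Pool.Agent.Helper49.SE.El0

/-!
# Project SE, package FO: products of forms, forms and charts, the action on forms
-/

set_option autoImplicit false
set_option linter.unusedSectionVars false

namespace Pool.Agent.Helper59.SE

open Pool.Agent.Helper49.SE

section proofs

variable {k K : Type} [Field k] [Field K] [Algebra k K] {N : ℕ}

theorem fo_mul (A : Subalgebra k K) (z : Fin (N + 1) → K) {d e : ℕ} {x y : K}
    (hx : x ∈ Fo A z d) (hy : y ∈ Fo A z e) : x * y ∈ Fo A z (d + e) := by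
  unfold Fo at hx hy ⊢
  refine Submodule.span_induction₂ (p := fun x y _ _ => x * y ∈ Submodule.span k
    {x | ∃ a ∈ A, ∃ m : Fin (d + e) → Fin (N + 1), x = a * ∏ i, z (m i)}) ?_ ?_ ?_ ?_ ?_ ?_ ?_ hx hy
  · rintro _ _ ⟨a, ha, m, rfl⟩ ⟨b, hb, m', rfl⟩
    refine Submodule.subset_span ⟨a * b, A.mul_mem ha hb, Fin.append m m', ?_⟩
    rw [Fin.prod_univ_add]
    simp only [Fin.append_left, Fin.append_right]
    ring
  · intro y _
    rw [zero_mul]; exact Submodule.zero_mem _
  · intro x _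
    rw [mul_zero]; exact Submodule.zero_mem _
  · intro x y z _ _ _ h1 h2
    rw [add_mul]; exact Submodule.add_mem _ h1 h2
  · intro x y z _ _ _ h1 h2
    rw [mul_add]; exact Submodule.add_mem _ h1 h2
  · intro r x y _ _ h
    rw [smul_mul_assoc]; exact Submodule.smul_mem _ _ h
  · intro r x y _ _ h
    rw [mul_smul_comm]; exact Submodule.smul_mem _ _ h

theorem fo_zero (A : Subalgebra k K) (z : Fin (N + 1) → K) {a : K} (ha : a ∈ A) :
    a ∈ Fo A z 0 :=
  Submodule.subset_span ⟨a, ha, Fin.elim0, by simp⟩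

theorem fo_one (A : Subalgebra k K) (z : Fin (N + 1) → K) (i : Fin (N + 1)) :
    z i ∈ Fo A z 1 :=
  Submodule.subset_span ⟨1, A.one_mem, fun _ => i, by simp⟩

theorem fo_pow (A : Subalgebra k K) (z : Fin (N + 1) → K) (i : Fin (N + 1)) (d : ℕ) :
    z i ^ d ∈ Fo A z d :=
  Submodule.subset_span ⟨1, A.one_mem, fun _ => i, by simp⟩

theorem fo_prod (A : Subalgebra k K) (z : Fin (N + 1) → K) (d : ℕ) (f : Fin d → K)
    (hf : ∀ i, f i ∈ Fo A z 1) : ∏ i, f i ∈ Fo A z d := by
  induction d with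
  | zero => simpa using fo_zero A z A.one_mem
  | succ d ih =>
    rw [Fin.prod_univ_castSucc]
    exact fo_mul A z (ih _ fun i => hf _) (hf _)

theorem foMul : FoMulStm := fun _ _ _ _ _ _ A z =>
  ⟨fun _ _ _ _ hx hy => fo_mul A z hx hy, fun _ ha => fo_zero A z ha, fun i => fo_one A z i⟩

theorem fo_ch (A : Subalgebra k K) (z : Fin (N + 1) → K) (j : Fin (N + 1))
    {d : ℕ} {x : K} (hx : x ∈ Fo A z d) : x / z j ^ d ∈ Ch A z j := by
  unfold Fo at hx
  induction hx using Submodule.span_induction with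
  | mem x hx =>
    obtain ⟨a, ha, m, rfl⟩ := hx
    have e : a * (∏ i, z (m i)) / z j ^ d = a * ∏ i, (z (m i) / z j) := by
      rw [Finset.prod_div_distrib, Finset.prod_const, Finset.card_univ, Fintype.card_fin,
        mul_div_assoc]
    rw [e]
    refine (Ch A z j).mul_mem ((le_sup_left : A ≤ Ch A z j) ha) (Subalgebra.prod_mem _ ?_)
    intro i _
    exact (le_sup_right : _ ≤ Ch A z j) (Algebra.subset_adjoin ⟨m i, rfl⟩)
  | zero => rw [zero_div]; exact (Ch A z j).zero_mem
  | add x y _ _ h1 h2 => rw [add_div]; exact (Ch A z j).add_mem h1 h2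
  | smul r x _ h => rw [smul_div_assoc]; exact (Ch A z j).smul_mem h r

theorem ch_fo (A : Subalgebra k K) (z : Fin (N + 1) → K) (hz : ∀ i, z i ≠ 0) (j : Fin (N + 1))
    {c : K} (hc : c ∈ Ch A z j) : ∃ d0 : ℕ, ∀ d, d0 ≤ d → c * z j ^ d ∈ Fo A z d := by
  have key : ∀ (d0 : ℕ), c * z j ^ d0 ∈ Fo A z d0 → ∀ d, d0 ≤ d → c * z j ^ d ∈ Fo A z d := by
    intro d0 h d hd
    obtain ⟨e, rfl⟩ := Nat.exists_eq_add_of_le hd
    rw [pow_add, ← mul_assoc]
    exact fo_mul A z h (fo_pow A z j e)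
  suffices h : ∃ d0 : ℕ, ∀ d, d0 ≤ d → c * z j ^ d ∈ Fo A z d from h
  have h1 : Ch A z j = Algebra.adjoin k ((A : Set K) ∪ Set.range fun i => z i / z j) := by
    rw [Algebra.adjoin_union, Algebra.adjoin_eq]
  rw [h1] at hc
  clear key
  induction hc using Algebra.adjoin_induction with
  | mem x hx =>
    rcases hx with hx | ⟨i, rfl⟩
    · refine ⟨0, fun d _ => ?_⟩
      have := fo_mul A z (fo_zero A z hx) (fo_pow A z j d)
      rwa [zero_add] at this
    · refine ⟨1, fun d hd => ?_⟩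
      obtain ⟨e, rfl⟩ := Nat.exists_eq_add_of_le hd
      have e1 : z i / z j * z j ^ (1 + e) = z i * z j ^ e := by
        rw [pow_add, pow_one, ← mul_assoc, div_mul_cancel₀ _ (hz j)]
      show z i / z j * z j ^ (1 + e) ∈ _
      rw [e1]
      exact fo_mul A z (fo_one A z i) (fo_pow A z j e)
  | algebraMap r =>
    refine ⟨0, fun d _ => ?_⟩
    have := fo_mul A z (fo_zero A z (A.algebraMap_mem r)) (fo_pow A z j d)
    rwa [zero_add] at this
  | add x y _ _ h1 h2 =>
    obtain ⟨a, ha⟩ := h1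
    obtain ⟨b, hb⟩ := h2
    refine ⟨max a b, fun d hd => ?_⟩
    rw [add_mul]
    exact Submodule.add_mem _ (ha d (le_trans (le_max_left _ _) hd))
      (hb d (le_trans (le_max_right _ _) hd))
  | mul x y _ _ h1 h2 =>
    obtain ⟨a, ha⟩ := h1
    obtain ⟨b, hb⟩ := h2
    refine ⟨a + b, fun d hd => ?_⟩
    obtain ⟨e, rfl⟩ := Nat.exists_eq_add_of_le hd
    have e1 : x * y * z j ^ (a + b + e) = x * z j ^ a * (y * z j ^ (b + e)) := by
      rw [pow_add, pow_add, pow_add]
      ring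
    rw [e1, add_assoc]
    exact fo_mul A z (ha a le_rfl) (hb (b + e) (Nat.le_add_right _ _))

theorem foCh : FoChStm := fun _ _ _ _ _ _ A z hz j =>
  ⟨fun _ _ hx => fo_ch A z j hx, fun _ hc => ch_fo A z hz j hc⟩

theorem span_fo (A : Subalgebra k K) (z : Fin (N + 1) → K) {x : K}
    (hx : x ∈ Submodule.span k (Set.range z)) : x ∈ Fo A z 1 := by
  refine Submodule.span_le.2 ?_ hx
  rintro _ ⟨i, rfl⟩
  exact fo_one A z i

theorem foAct : FoActStm := by
  intro k K _ _ _ N A z G _ ρ hρ g d x hx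
  unfold Fo at hx
  induction hx using Submodule.span_induction with
  | mem x hx =>
    obtain ⟨a, ha, m, rfl⟩ := hx
    rw [map_mul, map_prod]
    have := fo_mul A z (fo_zero A z (hρ.A g a ha))
      (fo_prod A z d (fun i => ρ g (z (m i))) fun i => span_fo A z (hρ.lin g (m i)))
    rwa [zero_add] at this
  | zero => rw [map_zero]; exact Submodule.zero_mem _
  | add x y _ _ h1 h2 => rw [map_add]; exact Submodule.add_mem _ h1 h2
  | smul r x _ h => rw [map_smul]; exact Submodule.smul_mem _ _ h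

end proofs
end Pool.Agent.Helper59.SE
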