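import Pool.Agent.Helper49.SE.El0

/-!
# Project SE, package ETLOC: localization of etale coordinates
-/

set_option autoImplicit false
set_option linter.unusedSectionVars false

namespace Pool.Agent.Helper59.SE

open MvPolynomial Pool.Agent.W559.Mg Pool.Agent.W559.Et Pool.Agent.Helper49.SE

theorem etLoc : EtLocStm := by
  intro k K _ _ _ B f g hf hg hg0 C hle hC n y hy y' hyy
  subst hC
  let _ : Algebra (lc B f hf) (lc (lc B f hf) g (le_lc B f hf hg)) :=
    (Subalgebra.inclusion (le_lc (lc B f hf) g (le_lc B f hf hg))).toRingHom.toAlgebra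
  have hloc : IsLocalization.Away (⟨g, le_lc B f hf hg⟩ : lc B f hf)
      (lc (lc B f hf) g (le_lc B f hf hg)) :=
    isLoc_lc (lc B f hf) (le_lc B f hf hg) (isUnit_iff_ne_zero.2 hg0)
  have h2 : (algebraMap (lc B f hf) (lc (lc B f hf) g (le_lc B f hf hg))).Etale :=
    RingHom.etale_algebraMap.2 (Algebra.Etale.of_isLocalizationAway (⟨g, le_lc B f hf hg⟩ : lc B f hf))
  have h3 := RingHom.Etale.stableUnderComposition _ _ hy h2
  have e : (aeval y' : MvPolynomial (Fin n) k →ₐ[k] lc (lc B f hf) g (le_lc B f hf hg)) =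
      (Subalgebra.inclusion (le_lc (lc B f hf) g (le_lc B f hf hg))).comp (aeval y) := by
    refine MvPolynomial.algHom_ext fun i => ?_
    rw [AlgHom.comp_apply, aeval_X, aeval_X]
    exact Subtype.ext (hyy i)
  rw [e]
  exact h3

end Pool.Agent.Helper59.SE
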